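import Pool.Agent.TH737.CP.Cx
import Pool.Agent.TH737.CP.Num

/-!
# Common preperiodic points of two polynomials which differ in the constant term

Let `k` be a subfield of a field `M` of characteristic `0` (for example `k = ℚ` or the algebraic
numbers, `M = ℂ`), let `P` be a polynomial of degree `d ≥ 2` over `k` and let `c ≠ c'` be elements
of `M` which are not both algebraic over `k`. Then `P + c` and `P + c'` have at most `2 d + 9` (for
odd `d`), `4 d + 35` (for even `d`), `21` (for `d = 2`) common preperiodic points in `M`. There are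
pairs `z ^ d + c`, `z ^ d + c'` over the complex numbers, with `c`, `c'` transcendental, which have
at least `d` (for even `d ≥ 4`: `2 d`) common preperiodic points.

Proof. We may assume that everything is defined over a function field `K` of one variable over `k`.
Let `w` be a place with `|c| > 1` and `|c| = R ^ d`. All preperiodic points have absolute value `R`,
and `|c'| = |c|` if there is a common preperiodic point. The preperiodic points of `P + c` are
coded by sequences of `d`-th roots of unity, and the distance of two of them is determined by the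
number of common digits. The orbits of a common preperiodic point under the two maps separate at a
time `n` determined by `|c - c'| = R ^ (1 - n (d - 1))`, and then the next digits `a`, `b` of the two
orbits have a difference `a - b ≠ 0` determined by the previous digits, which leaves at most two
possibilities for `a`. So the common preperiodic points are not equidistributed at `w`, and the
product of their differences is small, by a factor depending on `n`. The product formula for
`c - c'` bounds the times `n` on average, and the product formula for the differences of the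
common preperiodic points bounds their number.
-/

set_option autoImplicit false

open Finset Polynomial Pool.Agent.TH737.CP

namespace Pool.Agent.Results.MP_3827f0_nt.ConstantTermPairs

universe u v

/-- The preperiodic points of a polynomial: the points with a finite forward orbit. -/
def preper {M : Type u} [Field M] (f : M[X]) : Set M :=
  {x | (Set.range fun n : ℕ => (fun y : M => f.eval y)^[n] x).Finite}

lemma mem_preper {M : Type u} [Field M] (P : M[X]) (c x : M) :
    x ∈ preper (P + C c) ↔ Pre P c x := by
  have h : (fun y : M => (P + C c).eval y) = F P c := by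
    funext y
    unfold F
    simp
  unfold preper Pre
  rw [Set.mem_ofPred_eq, h]

lemma encard_le_of_finset {α : Type*} (s : Set α) (n : ℕ)
    (h : ∀ Y : Finset α, (∀ P ∈ Y, P ∈ s) → Y.card ≤ n) : s.encard ≤ n := by
  classical
  by_contra hcon
  push Not at hcon
  have h1 : ((n + 1 : ℕ) : ℕ∞) ≤ s.encard := by
    push_cast
    exact Order.add_one_le_of_lt hcon
  obtain ⟨t, hts, ht⟩ := Set.exists_subset_encard_eq h1
  have hfin : t.Finite := Set.finite_of_encard_eq_coe ht
  have h2 := h hfin.toFinset (fun P hP => hts (by simpa using hP))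
  have h3 : t.encard = (hfin.toFinset.card : ℕ∞) := hfin.encard_eq_coe_toFinset_card
  rw [h3] at ht
  have h4 : hfin.toFinset.card = n + 1 := by exact_mod_cast ht
  omega

lemma upper (k : Type v) (M : Type u) [Field k] [Field M] [CharZero M] [Algebra k M] (P : k[X])
    (c c' : M) (hd : 2 ≤ P.natDegree) (hne : c ≠ c')
    (halg : ¬ (IsAlgebraic k c ∧ IsAlgebraic k c')) (Y : Finset M)
    (hY : ∀ x ∈ Y, x ∈ preper (P.map (algebraMap k M) + C c) ∩
      preper (P.map (algebraMap k M) + C c')) :
    (Odd P.natDegree → Y.card ≤ 2 * P.natDegree + 9) ∧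
      (Even P.natDegree → Y.card ≤ 4 * P.natDegree + 35) ∧ (P.natDegree = 2 → Y.card ≤ 21) := by
  rcases Y.eq_empty_or_nonempty with rfl | hne'
  · simp
  refine final_bound.{u} P.natDegree hd Y.card fun q hq1 hqd hq m hm => ?_
  refine main_M hd hq1 hqd hq P rfl c c' halg hne Y hne' (fun x hx => ?_) m hm
  have := hY x hx
  exact ⟨(mem_preper _ _ _).1 this.1, (mem_preper _ _ _).1 this.2⟩

lemma pre_prev {M : Type u} [Field M] {P : M[X]} {c x : M} (h : Pre P c (F P c x)) :
    Pre P c x := by
  have h' : (Set.range fun n : ℕ => (F P c)^[n] (F P c x)).Finite := h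
  refine Set.Finite.subset (h'.insert x) ?_
  rintro _ ⟨n, rfl⟩
  rcases n with _ | n
  · exact Set.mem_insert _ _
  · right
    exact ⟨n, by simp only [Function.iterate_succ_apply]⟩

lemma pre_fixed {M : Type u} [Field M] {P : M[X]} {c x : M} (h : F P c x = x) : Pre P c x := by
  refine Set.Finite.subset (Set.finite_singleton x) ?_
  rintro _ ⟨n, rfl⟩
  rw [Set.mem_singleton_iff]
  induction n with
  | zero => rfl
  | succ n ih =>
    simp only [Function.iterate_succ_apply'] at ih ⊢
    rw [ih, h]

lemma roots_card (n : ℕ) (hn : n ≠ 0) (a : ℂ) (ha : a ≠ 0) :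
    ∃ R : Finset ℂ, R.card = n ∧ ∀ x ∈ R, x ^ n = a := by
  classical
  have hsep : (X ^ n - C a : ℂ[X]).Separable :=
    separable_X_pow_sub_C a (by exact_mod_cast hn) ha
  refine ⟨(X ^ n - C a : ℂ[X]).roots.toFinset, ?_, ?_⟩
  · rw [Multiset.toFinset_card_of_nodup (nodup_roots hsep)]
    have hs : (X ^ n - C a : ℂ[X]).Splits := IsAlgClosed.splits _
    rw [← hs.natDegree_eq_card_roots, natDegree_X_pow_sub_C]
  · intro x hx
    rw [Multiset.mem_toFinset, mem_roots (monic_X_pow_sub_C a hn).ne_zero, IsRoot.def] at hx
    simpa [sub_eq_zero] using hx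

lemma transc (d : ℕ) (hd : 2 ≤ d) (u ζ : ℂ) (hu : Transcendental ℚ u) (hζ : ζ ^ d = 1) :
    Transcendental ℚ (ζ * u - u ^ d) := by
  intro h
  have hζa : IsAlgebraic ℚ ζ := alg_root (by omega) hζ
  have hζ0 : ζ ≠ 0 := by
    rintro rfl
    rw [zero_pow (by omega)] at hζ
    exact zero_ne_one hζ
  -- `v = ζ u` satisfies `v - v ^ d = ζ u - u ^ d`
  have e : aeval (ζ * u) (X - X ^ d : ℚ[X]) = ζ * u - u ^ d := by
    rw [map_sub, map_pow, aeval_X, mul_pow, hζ, one_mul]
  have hdeg : (X - X ^ d : ℚ[X]).natDegree = d := by
    rw [natDegree_sub_eq_right_of_natDegree_lt]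
    · exact natDegree_X_pow d
    · rw [natDegree_X_pow, natDegree_X]; omega
  have h1 : IsAlgebraic ℚ (ζ * u) := by
    refine IsAlgebraic.of_aeval (X - X ^ d : ℚ[X]) (by rw [hdeg]; omega) ?_ (by rw [e]; exact h)
    refine mem_nonZeroDivisors_of_ne_zero (leadingCoeff_ne_zero.2 ?_)
    intro h0
    rw [h0, natDegree_zero] at hdeg
    omega
  apply hu
  have h2 := hζa.inv.mul h1
  rwa [inv_mul_cancel_left₀ hζ0] at h2

lemma card_le_encard (s : Set ℂ) (A : Finset ℂ) (h : ∀ a ∈ A, a ∈ s) : (A.card : ℕ∞) ≤ s.encard := by
  rw [← Set.encard_coe_eq_coe_finsetCard]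
  exact Set.encard_le_encard fun x hx => h x hx

lemma eval_F (d : ℕ) (c y : ℂ) : F (X ^ d : ℂ[X]) c y = y ^ d + c := by
  unfold F
  rw [eval_pow, eval_X]

lemma lower (d : ℕ) (hd : 2 ≤ d) : ∃ c c' : ℂ, Transcendental ℚ c ∧ Transcendental ℚ c' ∧ c ≠ c' ∧
    (d : ℕ∞) ≤ (preper (X ^ d + C c) ∩ preper (X ^ d + C c')).encard ∧
    (Even d → 4 ≤ d →
      ((2 * d : ℕ) : ℕ∞) ≤ (preper (X ^ d + C c) ∩ preper (X ^ d + C c')).encard) := by
  classical
  obtain ⟨u, hu⟩ : ∃ u : ℂ, Transcendental ℚ u := by
    by_contra hcon
    push Not at hcon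
    apply not_countable_complex
    refine Set.Countable.mono (fun x _ => ?_) (Algebraic.countable ℚ ℂ)
    exact not_not.1 (hcon x)
  obtain ⟨ζ, hζ⟩ := exists_prim ℂ d (by omega)
  have hζd := hζ.pow_eq_one
  have hζ1 : ζ ≠ 1 := hζ.ne_one (by omega)
  have hu0 : u ≠ 0 := by
    rintro rfl
    exact hu isAlgebraic_zero
  have hud : u ^ d ≠ 0 := pow_ne_zero d hu0
  set c := u - u ^ d with hc
  set c' := ζ * u - u ^ d with hc'
  have f1 : F (X ^ d : ℂ[X]) c u = u := by rw [eval_F, hc]; ring
  have f2 : F (X ^ d : ℂ[X]) c' (ζ * u) = ζ * u := by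
    rw [eval_F, hc', mul_pow, hζd]; ring
  have key1 : ∀ z : ℂ, z ^ d = u ^ d → z ∈ preper (X ^ d + C c) ∩ preper (X ^ d + C c') := by
    intro z hz
    constructor
    · rw [mem_preper]
      apply pre_prev
      have e : F (X ^ d : ℂ[X]) c z = u := by rw [eval_F, hz, hc]; ring
      rw [e]
      exact pre_fixed f1
    · rw [mem_preper]
      apply pre_prev
      have e : F (X ^ d : ℂ[X]) c' z = ζ * u := by rw [eval_F, hz, hc']; ring
      rw [e]
      exact pre_fixed f2
  obtain ⟨R1, hR1, hR1'⟩ := roots_card d (by omega) (u ^ d) hud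
  refine ⟨c, c', ?_, transc d hd u ζ hu hζd, ?_, ?_, ?_⟩
  · have := transc d hd u 1 hu (one_pow d)
    rwa [one_mul] at this
  · intro h
    rw [hc, hc'] at h
    have h1 : (ζ - 1) * u = 0 := by linear_combination -h
    rcases mul_eq_zero.1 h1 with h2 | h2
    · exact hζ1 (sub_eq_zero.1 h2)
    · exact hu0 h2
  · exact le_trans (le_of_eq (by rw [hR1])) (card_le_encard _ R1 fun z hz => key1 z (hR1' z hz))
  · intro he h4
    have hζm : 1 + ζ ≠ 0 := by
      intro h
      have h1 : ζ ^ 2 = 1 := by
        have : ζ = -1 := by linear_combination h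
        rw [this]; norm_num
      have := hζ.dvd_of_pow_eq_one 2 h1
      have := Nat.le_of_dvd (by norm_num) this
      omega
    set a := u ^ d - (1 + ζ) * u with ha
    have ha0 : a ≠ 0 := by
      intro h
      have h1 : u ^ (d - 1) = 1 + ζ := by
        have e : u ^ d = u ^ (d - 1) * u := by
          rw [← pow_succ]; congr 1; omega
        rw [ha, e] at h
        have h2 : (u ^ (d - 1) - (1 + ζ)) * u = 0 := by linear_combination h
        rcases mul_eq_zero.1 h2 with h3 | h3
        · exact sub_eq_zero.1 h3
        · exact absurd h3 hu0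
      apply hu
      have h2 : IsAlgebraic ℚ (u ^ (d - 1)) := by
        rw [h1]
        exact isAlgebraic_one.add (alg_root (by omega) hζd)
      exact h2.of_pow (by omega)
    obtain ⟨R2, hR2, hR2'⟩ := roots_card d (by omega) a ha0
    have key2 : ∀ z : ℂ, z ^ d = a → z ∈ preper (X ^ d + C c) ∩ preper (X ^ d + C c') := by
      intro z hz
      constructor
      · rw [mem_preper]
        apply pre_prev
        have e : F (X ^ d : ℂ[X]) c z = -(ζ * u) := by rw [eval_F, hz, ha, hc]; ring
        rw [e]
        apply pre_prev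
        have e2 : F (X ^ d : ℂ[X]) c (-(ζ * u)) = u := by
          rw [eval_F, he.neg_pow, mul_pow, hζd, hc]; ring
        rw [e2]
        exact pre_fixed f1
      · rw [mem_preper]
        apply pre_prev
        have e : F (X ^ d : ℂ[X]) c' z = -u := by rw [eval_F, hz, ha, hc']; ring
        rw [e]
        apply pre_prev
        have e2 : F (X ^ d : ℂ[X]) c' (-u) = ζ * u := by
          rw [eval_F, he.neg_pow, hc']; ring
        rw [e2]
        exact pre_fixed f2
    have hdisj : Disjoint R1 R2 := by
      rw [disjoint_left]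
      intro z h1 h2
      have e1 := hR1' z h1
      have e2 := hR2' z h2
      rw [e1, ha] at e2
      have h3 : (1 + ζ) * u = 0 := by linear_combination e2
      rcases mul_eq_zero.1 h3 with h4 | h4
      · exact hζm h4
      · exact hu0 h4
    have hcard : (R1 ∪ R2).card = 2 * d := by
      rw [card_union_of_disjoint hdisj, hR1, hR2]; ring
    rw [← hcard]
    refine card_le_encard _ _ fun z hz => ?_
    rcases mem_union.1 hz with h | h
    · exact key1 z (hR1' z h)
    · exact key2 z (hR2' z h)

/-- Two polynomials `P + c` and `P + c'` of degree `d` whose nonconstant coefficients lie in a field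
`k` of characteristic zero, with constant terms `c ≠ c'` which are not both algebraic over `k`, have
at most `2 d + 9` (odd `d`), `4 d + 35` (even `d`), `21` (`d = 2`) common preperiodic points in any
extension field `M`; over the complex numbers there are such pairs, with `P = z ^ d`, with at least
`d` (for even `d ≥ 4`: `2 d`) common preperiodic points. -/
theorem result :
    (∀ (k : Type v) (M : Type u) [Field k] [Field M] [CharZero M] [Algebra k M] (P : k[X])
      (c c' : M), 2 ≤ P.natDegree → c ≠ c' → ¬ (IsAlgebraic k c ∧ IsAlgebraic k c') →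
      (Odd P.natDegree → (preper (P.map (algebraMap k M) + C c) ∩
        preper (P.map (algebraMap k M) + C c')).encard ≤ ((2 * P.natDegree + 9 : ℕ) : ℕ∞)) ∧
      (Even P.natDegree → (preper (P.map (algebraMap k M) + C c) ∩
        preper (P.map (algebraMap k M) + C c')).encard ≤ ((4 * P.natDegree + 35 : ℕ) : ℕ∞)) ∧
      (P.natDegree = 2 → (preper (P.map (algebraMap k M) + C c) ∩
        preper (P.map (algebraMap k M) + C c')).encard ≤ ((21 : ℕ) : ℕ∞))) ∧
    (∀ d : ℕ, 2 ≤ d → ∃ c c' : ℂ, Transcendental ℚ c ∧ Transcendental ℚ c' ∧ c ≠ c' ∧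
      (d : ℕ∞) ≤ (preper (X ^ d + C c) ∩ preper (X ^ d + C c')).encard ∧
      (Even d → 4 ≤ d →
        ((2 * d : ℕ) : ℕ∞) ≤ (preper (X ^ d + C c) ∩ preper (X ^ d + C c')).encard)) := by
  refine ⟨fun k M _ _ _ _ P c c' hd hne halg => ⟨fun h => ?_, fun h => ?_, fun h => ?_⟩,
    fun d hd => lower d hd⟩
  · exact encard_le_of_finset _ _ fun Y hY => (upper k M P c c' hd hne halg Y hY).1 h
  · exact encard_le_of_finset _ _ fun Y hY => (upper k M P c c' hd hne halg Y hY).2.1 h
  · exact encard_le_of_finset _ _ fun Y hY => (upper k M P c c' hd hne halg Y hY).2.2 h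

end Pool.Agent.Results.MP_3827f0_nt.ConstantTermPairs
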